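import Mathlib

set_option autoImplicit false
open scoped Pointwise
open Finset

namespace Pool.Agent.W_MP_626a77_co_lead

variable {n : ℕ}

/-- number of points of the box `[0,x]` -/
def boxCard (x : Fin n → ℕ) : ℕ := ∏ i, (x i + 1)

/-- support -/
def supp (x : Fin n → ℕ) : Finset (Fin n) := univ.filter (fun i => x i ≠ 0)

lemma mem_supp (x : Fin n → ℕ) (i : Fin n) : i ∈ supp x ↔ x i ≠ 0 := by simp [supp]

lemma boxCard_pos (x : Fin n → ℕ) : 0 < boxCard x := by
  unfold boxCard; positivity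

/-! ### Step 1 -/

lemma sum_two_pow_le (D : Finset (Fin n → ℕ)) (hD : IsLowerSet (D : Set (Fin n → ℕ))) :
    ∑ a ∈ D, 2 ^ (supp a).card ≤ (D + D).card := by
  classical
  have h : ∑ a ∈ D, 2 ^ (supp a).card = (D.sigma (fun a => (supp a).powerset)).card := by
    rw [card_sigma]; simp
  rw [h]
  refine card_le_card_of_injOn
    (fun p : (_ : Fin n → ℕ) × Finset (Fin n) => (fun i => 2 * p.1 i - (if i ∈ p.2 then 1 else 0))) ?_ ?_
  · rintro ⟨a, T⟩ hp
    simp only [coe_sigma, Set.mem_sigma_iff, mem_coe, mem_powerset] at hp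
    obtain ⟨ha, hT⟩ := hp
    simp only [mem_coe]
    rw [Finset.mem_add]
    refine ⟨a, ha, fun i => a i - (if i ∈ T then 1 else 0), hD (fun i => Nat.sub_le _ _) ha, ?_⟩
    funext i
    simp only [Pi.add_apply]
    by_cases hi : i ∈ T
    · have : a i ≠ 0 := (mem_supp a i).1 (hT hi)
      simp only [hi, if_true]; omega
    · simp only [hi, if_false]; omega
  · rintro ⟨a, T⟩ hp ⟨b, U⟩ hq hpq
    simp only [coe_sigma, Set.mem_sigma_iff, mem_coe, mem_powerset] at hp hq
    have key : ∀ i, a i = b i ∧ (i ∈ T ↔ i ∈ U) := by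
      intro i
      have hi := congrFun hpq i
      simp only at hi
      have h1 : i ∈ T → a i ≠ 0 := fun h => (mem_supp a i).1 (hp.2 h)
      have h2 : i ∈ U → b i ≠ 0 := fun h => (mem_supp b i).1 (hq.2 h)
      by_cases hT : i ∈ T <;> by_cases hU : i ∈ U <;> simp only [hT, hU, if_true, if_false] at hi h1 h2 ⊢ <;>
        simp only [true_implies, false_implies] at h1 h2 <;> simp <;> omega
    have e1 : a = b := funext fun i => (key i).1
    have e2 : T = U := Finset.ext fun i => (key i).2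
    subst e1; subst e2; rfl

/-! ### Step 2 -/

noncomputable def g (j : ℕ) : ℝ := 1 / Real.sqrt ((j : ℝ) + 1)

lemma g_pos (j : ℕ) : 0 < g j := by unfold g; positivity

lemma sum_g_le (m : ℕ) : ∑ j ∈ range m, g j ≤ 2 * Real.sqrt m := by
  induction m with
  | zero => simp
  | succ m ih =>
    rw [sum_range_succ]
    have h1 : 0 ≤ Real.sqrt (m : ℝ) := Real.sqrt_nonneg _
    have h2 : 0 < Real.sqrt ((m : ℝ) + 1) := Real.sqrt_pos.2 (by positivity)
    have h3 : Real.sqrt (m : ℝ) ^ 2 = m := Real.sq_sqrt (by positivity)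
    have h4 : Real.sqrt ((m : ℝ) + 1) ^ 2 = m + 1 := Real.sq_sqrt (by positivity)
    have h5 : Real.sqrt (m : ℝ) ≤ Real.sqrt ((m : ℝ) + 1) := Real.sqrt_le_sqrt (by linarith)
    have h6 : g m ≤ 2 * (Real.sqrt ((m : ℝ) + 1) - Real.sqrt m) := by
      unfold g
      rw [div_le_iff₀ h2]
      nlinarith
    push_cast
    linarith

lemma mul_le_add_div {u v : ℝ} (hu : 0 < u) (hv : 0 < v) :
    1 / Real.sqrt u * (1 / Real.sqrt v) ≤ (1 / Real.sqrt u + 1 / Real.sqrt v) / Real.sqrt (u + v) := by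
  have a1 : 0 < Real.sqrt u := Real.sqrt_pos.2 hu
  have a2 : 0 < Real.sqrt v := Real.sqrt_pos.2 hv
  have a3 : 0 < Real.sqrt (u + v) := Real.sqrt_pos.2 (by positivity)
  have b1 : Real.sqrt u ^ 2 = u := Real.sq_sqrt hu.le
  have b2 : Real.sqrt v ^ 2 = v := Real.sq_sqrt hv.le
  have b3 : Real.sqrt (u + v) ^ 2 = u + v := Real.sq_sqrt (by positivity)
  have c : Real.sqrt (u + v) ≤ Real.sqrt u + Real.sqrt v := by
    by_contra hcon
    push Not at hcon
    nlinarith [mul_pos a1 a2]
  rw [le_div_iff₀ a3]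
  have e : 1 / Real.sqrt u + 1 / Real.sqrt v = (1 / Real.sqrt u * (1 / Real.sqrt v)) * (Real.sqrt u + Real.sqrt v) := by
    field_simp; ring
  rw [e]
  exact mul_le_mul_of_nonneg_left c (by positivity)

lemma sum_conv_le (t : ℕ) : ∑ j ∈ range (t + 1), g j * g (t - j) ≤ 4 := by
  have h1 : ∀ j ∈ range (t + 1), g j * g (t - j) ≤ (g j + g (t - j)) / Real.sqrt ((t : ℝ) + 2) := by
    intro j hj
    have hj' : j ≤ t := Nat.lt_succ_iff.1 (mem_range.1 hj)
    have := mul_le_add_div (u := (j : ℝ) + 1) (v := ((t - j : ℕ) : ℝ) + 1) (by positivity) (by positivity)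
    have e : ((j : ℝ) + 1) + (((t - j : ℕ) : ℝ) + 1) = (t : ℝ) + 2 := by
      rw [Nat.cast_sub hj']; ring
    rw [e] at this
    exact this
  have h2 : ∑ j ∈ range (t + 1), g (t - j) = ∑ j ∈ range (t + 1), g j := by
    have := Finset.sum_range_reflect g (t + 1)
    simpa using this
  have hs : 0 < Real.sqrt ((t : ℝ) + 2) := Real.sqrt_pos.2 (by positivity)
  have h3 : Real.sqrt ((t + 1 : ℕ) : ℝ) ≤ Real.sqrt ((t : ℝ) + 2) := Real.sqrt_le_sqrt (by push_cast; linarith)
  calc ∑ j ∈ range (t + 1), g j * g (t - j)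
      ≤ ∑ j ∈ range (t + 1), (g j + g (t - j)) / Real.sqrt ((t : ℝ) + 2) := sum_le_sum h1
    _ = (2 * ∑ j ∈ range (t + 1), g j) / Real.sqrt ((t : ℝ) + 2) := by
        rw [← sum_div, sum_add_distrib, h2]; ring
    _ ≤ (2 * (2 * Real.sqrt ((t : ℝ) + 2))) / Real.sqrt ((t : ℝ) + 2) := by
        apply div_le_div_of_nonneg_right _ hs.le
        have := sum_g_le (t + 1)
        nlinarith
    _ = 4 := by field_simp; ring

/-! ### Step 3 -/

lemma sqrt_prod' {ι : Type*} (S : Finset ι) (f : ι → ℝ) (hf : ∀ i ∈ S, 0 ≤ f i) :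
    Real.sqrt (∏ i ∈ S, f i) = ∏ i ∈ S, Real.sqrt (f i) := by
  classical
  induction S using Finset.induction_on with
  | empty => simp
  | insert i S hi ih =>
    rw [prod_insert hi, prod_insert hi, Real.sqrt_mul (hf i (mem_insert_self _ _)),
      ih (fun j hj => hf j (mem_insert_of_mem hj))]

lemma prod_g (a : Fin n → ℕ) : ∏ i, g (a i) = 1 / Real.sqrt (boxCard a) := by
  unfold g boxCard
  rw [prod_div_distrib]
  simp only [prod_const_one]
  congr 1
  push_cast
  rw [sqrt_prod' _ _ (fun i _ => by positivity)]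

lemma prod_conv_le (x : Fin n → ℕ) :
    ∏ i, ∑ j ∈ range (x i + 1), g j * g (x i - j) ≤ 4 ^ (supp x).card := by
  classical
  have h1 : ∀ i, ∑ j ∈ range (x i + 1), g j * g (x i - j) ≤ if i ∈ supp x then 4 else 1 := by
    intro i
    by_cases hi : i ∈ supp x
    · simp only [hi, if_true]; exact sum_conv_le _
    · have : x i = 0 := by
        by_contra h; exact hi ((mem_supp x i).2 h)
      simp only [hi, if_false, this]
      simp [g]
  have h0 : ∀ i, 0 ≤ ∑ j ∈ range (x i + 1), g j * g (x i - j) := by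
    intro i
    exact sum_nonneg fun j _ => (mul_pos (g_pos _) (g_pos _)).le
  calc ∏ i, ∑ j ∈ range (x i + 1), g j * g (x i - j)
      ≤ ∏ i, (if i ∈ supp x then (4 : ℝ) else 1) := prod_le_prod (fun i _ => h0 i) (fun i _ => h1 i)
    _ = 4 ^ (supp x).card := by
        rw [prod_ite]; simp

lemma count_le (x : Fin n → ℕ) (M : ℝ) (hM : 0 ≤ M) :
    (((Fintype.piFinset (fun i => range (x i + 1))).filter
      (fun a => (boxCard a : ℝ) ≤ M ∧ (boxCard (fun i => x i - a i) : ℝ) ≤ M)).card : ℝ)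
      ≤ M * 4 ^ (supp x).card := by
  classical
  have h1 : ∀ a : Fin n → ℕ, ((boxCard a : ℝ) ≤ M ∧ (boxCard (fun i => x i - a i) : ℝ) ≤ M) →
      1 ≤ M * ∏ i, (g (a i) * g (x i - a i)) := by
    intro a ⟨h, h'⟩
    rw [prod_mul_distrib, prod_g a, prod_g (fun i => x i - a i)]
    have p1 : (0:ℝ) < boxCard a := by exact_mod_cast boxCard_pos a
    have p2 : (0:ℝ) < boxCard (fun i => x i - a i) := by exact_mod_cast boxCard_pos _
    have q1 : Real.sqrt (boxCard a) ≤ Real.sqrt M := Real.sqrt_le_sqrt h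
    have q2 : Real.sqrt (boxCard (fun i => x i - a i)) ≤ Real.sqrt M := Real.sqrt_le_sqrt h'
    have r1 : 0 < Real.sqrt (boxCard a) := Real.sqrt_pos.2 p1
    have r2 : 0 < Real.sqrt (boxCard (fun i => x i - a i)) := Real.sqrt_pos.2 p2
    have hMM : Real.sqrt M * Real.sqrt M = M := Real.mul_self_sqrt hM
    have : Real.sqrt (boxCard a) * Real.sqrt (boxCard (fun i => x i - a i)) ≤ M := by
      calc _ ≤ Real.sqrt M * Real.sqrt M := mul_le_mul q1 q2 r2.le (Real.sqrt_nonneg _)
        _ = M := hMM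
    rw [one_div_mul_one_div, mul_one_div, le_div_iff₀ (mul_pos r1 r2)]
    linarith
  calc (((Fintype.piFinset (fun i => range (x i + 1))).filter
      (fun a => (boxCard a : ℝ) ≤ M ∧ (boxCard (fun i => x i - a i) : ℝ) ≤ M)).card : ℝ)
      = ∑ a ∈ ((Fintype.piFinset (fun i => range (x i + 1))).filter
      (fun a => (boxCard a : ℝ) ≤ M ∧ (boxCard (fun i => x i - a i) : ℝ) ≤ M)), (1:ℝ) := by simp
    _ ≤ ∑ a ∈ ((Fintype.piFinset (fun i => range (x i + 1))).filter
      (fun a => (boxCard a : ℝ) ≤ M ∧ (boxCard (fun i => x i - a i) : ℝ) ≤ M)),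
        M * ∏ i, (g (a i) * g (x i - a i)) := by
        apply sum_le_sum
        intro a ha
        exact h1 a (mem_filter.1 ha).2
    _ ≤ ∑ a ∈ Fintype.piFinset (fun i => range (x i + 1)), M * ∏ i, (g (a i) * g (x i - a i)) := by
        apply sum_le_sum_of_subset_of_nonneg (filter_subset _ _)
        intro a _ _
        exact mul_nonneg hM (prod_nonneg fun i _ => (mul_pos (g_pos _) (g_pos _)).le)
    _ = M * ∏ i, ∑ j ∈ range (x i + 1), g j * g (x i - j) := by
        rw [← mul_sum, prod_univ_sum]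
    _ ≤ M * 4 ^ (supp x).card := mul_le_mul_of_nonneg_left (prod_conv_le x) hM

/-! ### Step 4 -/

lemma supp_add_card_le (a b : Fin n → ℕ) : (supp (a + b)).card ≤ (supp a).card + (supp b).card := by
  classical
  refine (card_le_card ?_).trans (card_union_le _ _)
  intro i hi
  rw [mem_supp] at hi
  rw [mem_union, mem_supp, mem_supp]
  simp only [Pi.add_apply] at hi
  omega

lemma sq_sum_le (D : Finset (Fin n → ℕ)) (M : ℝ) (hM : 0 ≤ M) (hMax : ∀ a ∈ D, (boxCard a : ℝ) ≤ M) :
    (∑ a ∈ D, ((1:ℝ) / 4) ^ (supp a).card) ^ 2 ≤ M * (D + D).card := by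
  classical
  calc (∑ a ∈ D, ((1:ℝ) / 4) ^ (supp a).card) ^ 2
      = ∑ p ∈ D ×ˢ D, ((1:ℝ) / 4) ^ ((supp p.1).card + (supp p.2).card) := by
        rw [sq, sum_mul_sum, sum_product]
        simp only [pow_add]
    _ ≤ ∑ p ∈ D ×ˢ D, ((1:ℝ) / 4) ^ (supp (p.1 + p.2)).card := by
        apply sum_le_sum
        intro p _
        exact pow_le_pow_of_le_one (by norm_num) (by norm_num) (supp_add_card_le _ _)
    _ = ∑ x ∈ D + D, ∑ p ∈ (D ×ˢ D).filter (fun p => p.1 + p.2 = x), ((1:ℝ) / 4) ^ (supp (p.1 + p.2)).card := by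
        rw [sum_fiberwise_of_maps_to]
        intro p hp
        rw [mem_product] at hp
        exact Finset.add_mem_add hp.1 hp.2
    _ ≤ ∑ x ∈ D + D, M := by
        apply sum_le_sum
        intro x _
        have e : ∑ p ∈ (D ×ˢ D).filter (fun p => p.1 + p.2 = x), ((1:ℝ) / 4) ^ (supp (p.1 + p.2)).card
            = ((D ×ˢ D).filter (fun p => p.1 + p.2 = x)).card * ((1:ℝ) / 4) ^ (supp x).card := by
          rw [sum_congr rfl (g := fun _ => ((1:ℝ) / 4) ^ (supp x).card)]
          · simp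
          · intro p hp
            rw [(mem_filter.1 hp).2]
        rw [e]
        have hc : (((D ×ˢ D).filter (fun p => p.1 + p.2 = x)).card : ℝ) ≤ M * 4 ^ (supp x).card := by
          refine le_trans ?_ (count_le x M hM)
          norm_cast
          refine card_le_card_of_injOn (fun p => p.1) ?_ ?_
          · intro p hp
            simp only [mem_coe, mem_filter, mem_product] at hp
            obtain ⟨⟨h1, h2⟩, h3⟩ := hp
            simp only [mem_coe, mem_filter, Fintype.mem_piFinset, mem_range]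
            have h4 : ∀ i, p.1 i + p.2 i = x i := fun i => congrFun h3 i
            refine ⟨fun i => by have := h4 i; omega, hMax _ h1, ?_⟩
            have : (fun i => x i - p.1 i) = p.2 := by
              funext i; have := h4 i; omega
            rw [this]; exact hMax _ h2
          · intro p hp q hq hpq
            simp only [mem_coe, mem_filter, mem_product] at hp hq
            simp only at hpq
            have : p.2 = q.2 := by
              have := hp.2.trans hq.2.symm
              rw [hpq] at this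
              exact add_left_cancel this
            exact Prod.ext hpq this
        calc (((D ×ˢ D).filter (fun p => p.1 + p.2 = x)).card : ℝ) * ((1:ℝ) / 4) ^ (supp x).card
            ≤ (M * 4 ^ (supp x).card) * ((1:ℝ) / 4) ^ (supp x).card :=
              mul_le_mul_of_nonneg_right hc (by positivity)
          _ = M := by
              rw [mul_assoc, ← mul_pow]; norm_num
    _ = M * (D + D).card := by
        rw [sum_const, nsmul_eq_mul, mul_comm]

/-! ### Step 5 -/

lemma tangent {y l : ℝ} (hy : 0 < y) (hl : 0 < l) : 3 / l ^ 2 - 2 / l ^ 3 * y ≤ 1 / y ^ 2 := by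
  rw [le_div_iff₀ (by positivity)]
  have : (3 / l ^ 2 - 2 / l ^ 3 * y) * y ^ 2 = (3 * l * y ^ 2 - 2 * y ^ 3) / l ^ 3 := by
    field_simp
  rw [this, div_le_one (by positivity)]
  nlinarith [mul_nonneg hy.le (sq_nonneg (y - l)), mul_nonneg hl.le (sq_nonneg (y - l)), sq_nonneg (y - l)]

lemma card_le_of_doubling (D : Finset (Fin n → ℕ)) (hne : D.Nonempty) (hD : IsLowerSet (D : Set (Fin n → ℕ)))
    (M l : ℝ) (hl : 1 ≤ l) (hM : 0 ≤ M) (hMax : ∀ a ∈ D, (boxCard a : ℝ) ≤ M)
    (hdbl : ((D + D).card : ℝ) ≤ l * D.card) : (D.card : ℝ) ≤ M * l ^ 5 := by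
  have hl0 : 0 < l := by linarith
  have hDpos : (0:ℝ) < D.card := by exact_mod_cast hne.card_pos
  have h1 : (∑ a ∈ D, (2:ℝ) ^ (supp a).card) ≤ l * D.card := by
    refine le_trans ?_ hdbl
    have := sum_two_pow_le D hD
    exact_mod_cast this
  have h2 : D.card / l ^ 2 ≤ ∑ a ∈ D, ((1:ℝ) / 4) ^ (supp a).card := by
    calc (D.card : ℝ) / l ^ 2 ≤ 3 / l ^ 2 * D.card - 2 / l ^ 3 * (∑ a ∈ D, (2:ℝ) ^ (supp a).card) := by
          have : 2 / l ^ 3 * (∑ a ∈ D, (2:ℝ) ^ (supp a).card) ≤ 2 / l ^ 3 * (l * D.card) :=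
            mul_le_mul_of_nonneg_left h1 (by positivity)
          have e : 3 / l ^ 2 * (D.card : ℝ) - 2 / l ^ 3 * (l * D.card) = D.card / l ^ 2 := by
            field_simp; ring
          linarith
      _ = ∑ a ∈ D, (3 / l ^ 2 - 2 / l ^ 3 * (2:ℝ) ^ (supp a).card) := by
          rw [sum_sub_distrib, ← mul_sum]
          simp [mul_comm]
      _ ≤ ∑ a ∈ D, ((1:ℝ) / 4) ^ (supp a).card := by
          apply sum_le_sum
          intro a _
          refine (tangent (y := (2:ℝ) ^ (supp a).card) (by positivity) hl0).trans (le_of_eq ?_)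
          rw [← pow_mul, mul_comm, pow_mul, one_div_pow]
          norm_num
  have h3 := sq_sum_le D M hM hMax
  have h4 : (D.card / l ^ 2) ^ 2 ≤ M * (l * D.card) := by
    calc ((D.card : ℝ) / l ^ 2) ^ 2 ≤ (∑ a ∈ D, ((1:ℝ) / 4) ^ (supp a).card) ^ 2 :=
          pow_le_pow_left₀ (by positivity) h2 2
      _ ≤ M * (D + D).card := h3
      _ ≤ M * (l * D.card) := mul_le_mul_of_nonneg_left hdbl hM
  rw [div_pow, div_le_iff₀ (by positivity)] at h4
  have h5 : (D.card : ℝ) * D.card ≤ (M * l ^ 5) * D.card := by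
    calc (D.card : ℝ) * D.card = (D.card : ℝ) ^ 2 := by ring
      _ ≤ M * (l * D.card) * (l ^ 2) ^ 2 := h4
      _ = (M * l ^ 5) * D.card := by ring
  exact le_of_mul_le_mul_right h5 hDpos

lemma boxCard_two (a : Fin n → ℕ) : ((3:ℝ) / 2) ^ (supp a).card * boxCard a ≤ boxCard (fun i => 2 * a i) := by
  classical
  unfold boxCard
  have : ((3:ℝ) / 2) ^ (supp a).card = ∏ i, (if i ∈ supp a then (3:ℝ) / 2 else 1) := by
    rw [prod_ite, prod_const, prod_const_one, mul_one]
    congr 2
    ext i; simp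
  rw [this]
  push_cast
  rw [← prod_mul_distrib]
  apply prod_le_prod
  · intro i _
    split_ifs <;> positivity
  · intro i _
    by_cases hi : i ∈ supp a
    · simp only [hi, if_true]
      have : a i ≠ 0 := (mem_supp a i).1 hi
      have h1 : (1:ℝ) ≤ a i := by exact_mod_cast Nat.one_le_iff_ne_zero.2 this
      linarith
    · simp only [hi, if_false]
      have : (0:ℝ) ≤ a i := by positivity
      linarith

lemma card_Iic_eq (a : Fin n → ℕ) : (Finset.Iic a).card = boxCard a := by
  classical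
  have : Finset.Iic a = Fintype.piFinset (fun i => range (a i + 1)) := by
    ext x
    simp only [Finset.mem_Iic, Fintype.mem_piFinset, mem_range, Pi.le_def]
    exact forall_congr' fun i => by omega
  rw [this, Fintype.card_piFinset]
  simp [boxCard]

lemma Iic_two_subset (a : Fin n → ℕ) (D : Finset (Fin n → ℕ)) (hD : IsLowerSet (D : Set (Fin n → ℕ)))
    (ha : a ∈ D) : Finset.Iic (fun i => 2 * a i) ⊆ D + D := by
  intro x hx
  rw [Finset.mem_Iic, Pi.le_def] at hx
  rw [Finset.mem_add]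
  refine ⟨fun i => min (x i) (a i), hD (fun i => min_le_right _ _) ha,
    fun i => x i - min (x i) (a i), hD (fun i => ?_) ha, ?_⟩
  · have := hx i
    simp only at this ⊢
    omega
  · funext i
    simp only [Pi.add_apply]
    omega


/-- the structural conclusion about the down-set -/
lemma exists_box (D : Finset (Fin n → ℕ)) (hne : D.Nonempty) (hD : IsLowerSet (D : Set (Fin n → ℕ)))
    (l : ℝ) (hl : 1 ≤ l) (hdbl : ((D + D).card : ℝ) ≤ l * D.card) :
    ∃ a ∈ D, (D.card : ℝ) ≤ boxCard a * l ^ 5 ∧ ((3:ℝ) / 2) ^ (supp a).card ≤ l ^ 6 := by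
  obtain ⟨a, ha, hmax⟩ := D.exists_max_image boxCard hne
  have h1 := card_le_of_doubling D hne hD (boxCard a) l hl (by positivity)
    (fun b hb => by exact_mod_cast hmax b hb) hdbl
  refine ⟨a, ha, h1, ?_⟩
  have h2 : (boxCard (fun i => 2 * a i) : ℝ) ≤ (D + D).card := by
    rw [← card_Iic_eq]
    exact_mod_cast card_le_card (Iic_two_subset a D hD ha)
  have h3 := boxCard_two a
  have hp : (0:ℝ) < boxCard a := by exact_mod_cast boxCard_pos a
  have hl0 : 0 < l := by linarith
  have h4 : ((3:ℝ) / 2) ^ (supp a).card * boxCard a ≤ l ^ 6 * boxCard a := by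
    calc ((3:ℝ) / 2) ^ (supp a).card * boxCard a ≤ boxCard (fun i => 2 * a i) := h3
      _ ≤ (D + D).card := h2
      _ ≤ l * D.card := hdbl
      _ ≤ l * (boxCard a * l ^ 5) := mul_le_mul_of_nonneg_left h1 hl0.le
      _ = l ^ 6 * boxCard a := by ring
  exact le_of_mul_le_mul_right h4 hp

/-! ### Step 6: covering in `ℤ` -/

/-- the linear map -/
def phi (v : Fin n → ℤ) (x : Fin n → ℤ) : ℤ := ∑ i, v i * x i

lemma phi_add (v x y : Fin n → ℤ) : phi v (x + y) = phi v x + phi v y := by
  simp [phi, mul_add, sum_add_distrib]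

lemma phi_sub (v x y : Fin n → ℤ) : phi v (x - y) = phi v x - phi v y := by
  simp [phi, mul_sub, sum_sub_distrib]

/-- One dimensional covering. -/
lemma cover_one (a : ℕ) (z : ℤ) (hz : |z| ≤ a) : ∃ e ∈ ({-1, 0, 1} : Finset ℤ),
    |z - e * ((a : ℤ) - (a / 2 : ℕ))| ≤ (a / 2 : ℕ) := by
  rw [abs_le] at hz
  by_cases h1 : |z| ≤ (a / 2 : ℕ)
  · exact ⟨0, by simp, by simpa using h1⟩
  · rw [abs_le] at h1
    by_cases h2 : 0 ≤ z
    · refine ⟨1, by simp, ?_⟩
      rw [abs_le]
      constructor <;> omega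
    · refine ⟨-1, by simp, ?_⟩
      rw [abs_le]
      constructor <;> omega

lemma sum_supp (a : Fin n → ℕ) (w z : Fin n → ℤ) (hz : ∀ i, |z i| ≤ a i) :
    ∑ i, w i * z i = ∑ j : Fin (supp a).card, w ((supp a).equivFin.symm j) * z ((supp a).equivFin.symm j) := by
  classical
  have h1 : ∑ i, w i * z i = ∑ i ∈ supp a, w i * z i := by
    symm
    apply sum_subset (subset_univ _)
    intro i _ hi
    have : a i = 0 := by
      by_contra h; exact hi ((mem_supp a i).2 h)
    have h2 := hz i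
    rw [this] at h2
    have : z i = 0 := by simpa using h2
    rw [this, mul_zero]
  rw [h1, ← sum_coe_sort (supp a) (fun i => w i * z i)]
  exact (Equiv.sum_comp (supp a).equivFin.symm (fun i : supp a => w i * z i)).symm

lemma prod_supp_le (a : Fin n → ℕ) :
    ∏ j : Fin (supp a).card, (2 * (a ((supp a).equivFin.symm j) / 2) + 1) ≤ boxCard a := by
  classical
  rw [Equiv.prod_comp (supp a).equivFin.symm (fun i : supp a => 2 * (a i / 2) + 1),
    prod_coe_sort (supp a) (fun i => 2 * (a i / 2) + 1)]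
  unfold boxCard
  calc ∏ i ∈ supp a, (2 * (a i / 2) + 1) ≤ ∏ i ∈ supp a, (a i + 1) := by
        apply prod_le_prod' 
        intro i _
        omega
    _ ≤ ∏ i, (a i + 1) := by
        apply prod_le_prod_of_subset_of_one_le' (subset_univ _)
        intro i _ _
        omega

theorem main (c : ℝ) (hc : 0 ≤ c) :
    ∃ C : ℝ, 0 < C ∧ ∀ (K : ℝ) (A : Finset ℤ), A.Nonempty →
      (((A + A).card : ℝ) ≤ K * (A.card : ℝ)) →
      (∃ (n : ℕ) (D : Finset (Fin n → ℕ)) (w : Fin n → ℤ) (t : ℤ),
          D.Nonempty ∧ IsLowerSet (D : Set (Fin n → ℕ)) ∧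
          Set.InjOn (fun x : Fin n → ℕ => ∑ i, w i * (x i : ℤ)) ((D + D : Finset (Fin n → ℕ)) : Set (Fin n → ℕ)) ∧
          (∀ x ∈ D, t + ∑ i, w i * (x i : ℤ) ∈ A) ∧
          (A.card : ℝ) ≤ K ^ c * (D.card : ℝ)) →
      ∃ (d : ℕ) (B : Set (Fin d → ℝ)) (v : Fin d → ℤ) (T : Finset ℤ),
        (d : ℝ) ≤ C * (1 + Real.log K) ∧
        Convex ℝ B ∧ IsCompact B ∧ (interior B).Nonempty ∧ (∀ x ∈ B, -x ∈ B) ∧
        ({x : Fin d → ℤ | (fun i => (x i : ℝ)) ∈ B}.ncard ≤ A.card) ∧
        ((T.card : ℝ) ≤ C * K ^ C) ∧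
        ∀ a ∈ A, ∃ t ∈ T, ∃ x : Fin d → ℤ,
          (fun i => (x i : ℝ)) ∈ B ∧ a = t + ∑ i, v i * x i := by
  classical
  refine ⟨24 * (1 + c), by positivity, ?_⟩
  rintro K A hA hK ⟨n, D, w, t, hDne, hD, hinj, hsub, hcard⟩
  have hApos : (0:ℝ) < A.card := by exact_mod_cast hA.card_pos
  have hK1 : 1 ≤ K := by
    have h1 : (A.card : ℝ) ≤ (A + A).card := by exact_mod_cast Finset.card_le_card_add_left hA
    by_contra h
    push Not at h
    nlinarith
  have hK0 : 0 < K := by linarith
  set f : (Fin n → ℕ) → ℤ := fun x => ∑ i, w i * (x i : ℤ) with hf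
  have fadd : ∀ x y, f (x + y) = f x + f y := by
    intro x y
    simp [hf, mul_add, sum_add_distrib]
  set l : ℝ := K ^ (1 + c) with hl
  have hl1 : 1 ≤ l := Real.one_le_rpow hK1 (by linarith)
  have hl0 : 0 < l := by linarith
  -- doubling of D
  have hDD : ((D + D).card : ℝ) ≤ l * D.card := by
    have h1 : (D + D).card ≤ (A + A).card := by
      refine card_le_card_of_injOn (fun x => t + t + f x) ?_ ?_
      · intro x hx
        obtain ⟨y, hy, z, hz, rfl⟩ := Finset.mem_add.1 (mem_coe.1 hx)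
        simp only [mem_coe]
        rw [fadd]
        have := Finset.add_mem_add (hsub y hy) (hsub z hz)
        convert this using 1
        simp only [hf]; ring
      · intro x hx y hy hxy
        exact hinj hx hy (by simpa using hxy)
    calc ((D + D).card : ℝ) ≤ (A + A).card := by exact_mod_cast h1
      _ ≤ K * A.card := hK
      _ ≤ K * (K ^ c * D.card) := mul_le_mul_of_nonneg_left hcard hK0.le
      _ = l * D.card := by
          rw [hl, Real.rpow_add hK0, Real.rpow_one]; ring
  obtain ⟨a, ha, hDa, hs⟩ := exists_box D hDne hD l hl1 hDD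
  have hzero : (0 : Fin n → ℕ) ∈ D := hD (fun i => Nat.zero_le _) ha
  have hIic : ∀ x, x ≤ a → x ∈ D := fun x hx => hD hx ha
  have hDsub : D ⊆ D + D := fun x hx => by
    rw [Finset.mem_add]; exact ⟨x, hx, 0, hzero, by simp⟩
  set P : Finset ℤ := (Finset.Iic a).image f with hP
  have hPcard : P.card = boxCard a := by
    rw [hP, card_image_of_injOn, card_Iic_eq]
    intro x hx y hy hxy
    simp only [Finset.coe_Iic, Set.mem_Iic] at hx hy
    exact hinj (hDsub (hIic x hx)) (hDsub (hIic y hy)) hxy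
  have hPne : P.Nonempty := ⟨f a, mem_image_of_mem _ (Finset.mem_Iic.2 le_rfl)⟩
  have hbpos : (0:ℝ) < boxCard a := by exact_mod_cast boxCard_pos a
  have hPA : ∀ p ∈ P, t + p ∈ A := by
    intro p hp
    obtain ⟨x, hx, rfl⟩ := mem_image.1 hp
    exact hsub x (hIic x (Finset.mem_Iic.1 hx))
  have hPcardA : boxCard a ≤ A.card := by
    rw [← hPcard]
    refine card_le_card_of_injOn (fun p => t + p) (fun p hp => hPA p hp) ?_
    intro x _ y _ hxy
    simpa using hxy
  have hAP : ((A + P).card : ℝ) ≤ K * A.card := by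
    refine le_trans ?_ hK
    norm_cast
    refine card_le_card_of_injOn (fun p => t + p) ?_ ?_
    · intro x hx
      obtain ⟨y, hy, z, hz, rfl⟩ := Finset.mem_add.1 (mem_coe.1 hx)
      simp only [mem_coe]
      have := Finset.add_mem_add hy (hPA z hz)
      convert this using 1
      ring
    · intro x _ y _ hxy
      simpa using hxy
  have hcov := Finset.ruzsa_covering_add (K := K * A.card / boxCard a) (A := A) (B := P) hPne (by
    rw [hPcard]
    refine hAP.trans (le_of_eq ?_)
    field_simp)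
  obtain ⟨F, hFA, hFcard, hFcov⟩ := hcov
  have hAcard : (A.card : ℝ) ≤ K ^ c * (boxCard a * l ^ 5) :=
    hcard.trans (mul_le_mul_of_nonneg_left hDa (by positivity))
  have hF6 : (F.card : ℝ) ≤ l ^ 6 := by
    refine hFcard.trans ?_
    rw [div_le_iff₀ hbpos]
    calc K * A.card ≤ K * (K ^ c * (boxCard a * l ^ 5)) := mul_le_mul_of_nonneg_left hAcard hK0.le
      _ = (K * K ^ c) * l ^ 5 * boxCard a := by ring
      _ = l * l ^ 5 * boxCard a := by
          rw [hl, Real.rpow_add hK0, Real.rpow_one]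
      _ = l ^ 6 * boxCard a := by ring
  have h3s : (3:ℝ) ^ (supp a).card ≤ l ^ 18 := by
    calc (3:ℝ) ^ (supp a).card ≤ (((3:ℝ) / 2) ^ 3) ^ (supp a).card :=
          pow_le_pow_left₀ (by norm_num) (by norm_num) _
      _ = (((3:ℝ) / 2) ^ (supp a).card) ^ 3 := by rw [← pow_mul, ← pow_mul, mul_comm]
      _ ≤ (l ^ 6) ^ 3 := pow_le_pow_left₀ (by positivity) hs 3
      _ = l ^ 18 := by ring
  have hlog : ((supp a).card : ℝ) ≤ 18 * (1 + c) * Real.log K := by
    have h1 := Real.log_le_log (by positivity) hs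
    rw [Real.log_pow, Real.log_pow, hl, Real.log_rpow hK0] at h1
    have h2 : (1:ℝ) / 3 ≤ Real.log (3 / 2) := by
      have := Real.one_sub_inv_le_log_of_pos (x := (3:ℝ) / 2) (by norm_num)
      norm_num at this ⊢
      linarith
    have h3 : ((supp a).card : ℝ) * (1 / 3) ≤ (supp a).card * Real.log (3 / 2) :=
      mul_le_mul_of_nonneg_left h2 (by positivity)
    push_cast at h1
    linarith
  have hlogK : 0 ≤ Real.log K := Real.log_nonneg hK1
  -- data
  set s := (supp a).card with hsdef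
  let e : Fin s ≃ supp a := (supp a).equivFin.symm
  let m : Fin s → ℕ := fun j => a (e j) / 2
  let h : Fin s → ℤ := fun j => (a (e j) : ℤ) - (a (e j) / 2 : ℕ)
  let r : Fin s → ℝ := fun j => (m j : ℝ) + 1 / 2
  let v : Fin s → ℤ := fun j => w (e j)
  let E : Finset ℤ := (Fintype.piFinset (fun _ : Fin s => ({-1, 0, 1} : Finset ℤ))).image
    (fun ε => ∑ j, v j * (ε j * h j))
  have hEcard : E.card ≤ 3 ^ s := by
    refine card_image_le.trans ?_
    rw [Fintype.card_piFinset]
    simp
  refine ⟨s, Set.Icc (fun j => -r j) r, v, F + E, ?_, convex_Icc _ _, isCompact_Icc, ?_, ?_, ?_, ?_, ?_⟩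
  · nlinarith [mul_nonneg (by linarith : (0:ℝ) ≤ 1 + c) hlogK]
  · refine ⟨0, mem_interior_iff_mem_nhds.2 (pi_Icc_mem_nhds ?_ ?_)⟩
    · intro j; simp only [r, Pi.zero_apply]
      have : (0:ℝ) ≤ m j := by positivity
      linarith
    · intro j; simp only [r, Pi.zero_apply]
      have : (0:ℝ) ≤ m j := by positivity
      linarith
  · intro x hx
    rw [Set.mem_Icc] at hx ⊢
    constructor
    · intro j; have := hx.2 j; simp only [Pi.neg_apply]; linarith
    · intro j; have := hx.1 j; simp only [Pi.neg_apply]; simp only at this; linarith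
  · have hsubset : {x : Fin s → ℤ | (fun i => (x i : ℝ)) ∈ Set.Icc (fun j => -r j) r} ⊆
        ((Fintype.piFinset (fun j => Finset.Icc (-(m j : ℤ)) (m j)) : Finset (Fin s → ℤ)) : Set (Fin s → ℤ)) := by
      intro x hx
      rw [Set.mem_ofPred_eq, Set.mem_Icc] at hx
      simp only [mem_coe, Fintype.mem_piFinset, Finset.mem_Icc]
      intro j
      have h1 := hx.1 j
      have h2 := hx.2 j
      simp only [r] at h1 h2
      constructor
      · by_contra hcon
        push Not at hcon
        have : (x j : ℝ) ≤ -(m j : ℝ) - 1 := by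
          have : x j ≤ -(m j : ℤ) - 1 := by omega
          exact_mod_cast this
        linarith
      · by_contra hcon
        push Not at hcon
        have : (m j : ℝ) + 1 ≤ x j := by
          have : (m j : ℤ) + 1 ≤ x j := by omega
          exact_mod_cast this
        linarith
    refine (Set.ncard_le_ncard hsubset (Finset.finite_toSet _)).trans ?_
    rw [Set.ncard_coe_finset, Fintype.card_piFinset]
    refine le_trans (le_of_eq ?_) ((prod_supp_le a).trans hPcardA)
    apply prod_congr rfl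
    intro j _
    rw [Int.card_Icc]
    simp only [m, e]
    omega
  · have h1 : ((F + E).card : ℝ) ≤ l ^ 24 := by
      calc ((F + E).card : ℝ) ≤ F.card * E.card := by exact_mod_cast Finset.card_add_le
        _ ≤ l ^ 6 * l ^ 18 := by
            apply mul_le_mul hF6 _ (by positivity) (by positivity)
            refine le_trans ?_ h3s
            exact_mod_cast hEcard
        _ = l ^ 24 := by ring
    have h2 : l ^ 24 = K ^ (24 * (1 + c)) := by
      rw [hl, ← Real.rpow_natCast, ← Real.rpow_mul hK0.le]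
      congr 1
      push_cast; ring
    have h3 : 0 ≤ K ^ (24 * (1 + c)) := by positivity
    rw [h2] at h1
    nlinarith
  · intro x hx
    have hx' := hFcov hx
    obtain ⟨f0, hf0, q, hq, rfl⟩ := Finset.mem_add.1 hx'
    obtain ⟨p1, hp1, p2, hp2, rfl⟩ := Finset.mem_sub.1 hq
    obtain ⟨y, hy, rfl⟩ := mem_image.1 hp1
    obtain ⟨z, hz, rfl⟩ := mem_image.1 hp2
    rw [Finset.mem_Iic] at hy hz
    have hyz : ∀ i, |(y i : ℤ) - z i| ≤ a i := by
      intro i
      have h1 : y i ≤ a i := hy i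
      have h2 : z i ≤ a i := hz i
      rw [abs_le]; constructor <;> omega
    have hε : ∀ j : Fin s, ∃ ε ∈ ({-1, 0, 1} : Finset ℤ),
        |((y (e j) : ℤ) - z (e j)) - ε * h j| ≤ (m j : ℤ) := by
      intro j
      exact cover_one (a (e j)) _ (hyz (e j))
    choose ε hεm hεb using hε
    refine ⟨f0 + ∑ j, v j * (ε j * h j), ?_, fun j => ((y (e j) : ℤ) - z (e j)) - ε j * h j, ?_, ?_⟩
    · apply Finset.add_mem_add hf0
      apply mem_image_of_mem (fun ε : Fin s → ℤ => ∑ j, v j * (ε j * h j))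
      rw [Fintype.mem_piFinset]
      exact hεm
    · rw [Set.mem_Icc]
      have hb : ∀ j, |(((((y (e j) : ℤ) - z (e j)) - ε j * h j : ℤ)) : ℝ)| ≤ m j := by
        intro j
        exact_mod_cast hεb j
      constructor
      · intro j
        have := (abs_le.1 (hb j)).1
        simp only [r]; linarith
      · intro j
        have := (abs_le.1 (hb j)).2
        simp only [r]; linarith
    · have h1 : f y - f z = ∑ i, w i * ((y i : ℤ) - z i) := by
        simp [hf, mul_sub, sum_sub_distrib]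
      have h2 := sum_supp a w (fun i => (y i : ℤ) - z i) hyz
      rw [h1, h2, add_assoc, ← sum_add_distrib]
      congr 1
      apply sum_congr rfl
      intro j _
      simp only [v, e]
      ring

end Pool.Agent.W_MP_626a77_co_lead
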